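import Pool.Agent.H541R2.SC.Lower
import Pool.Agent.H541R2.SC.Upper
import Pool.Agent.H541R2.SC.Matrix

/-!
# Path systems (a P-complete problem) and symmetric circuits with walk-counting gates

Inputs are the bits `R a b c` of a path system on `n` interchangeable elements and a set `M` of
distinguished elements.  The circuits are symmetric (label-invariant), their gates are arbitrary
functions of the numbers of walks of each length in networks whose arcs are switched by other gates
(AND, OR, NOT, threshold, counting, reachability, characteristic polynomial, ...).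

1. Lower bound: in a circuit deciding derivability with output depth at most `d`, some gate or some
   network node has at least `n ^ w` images under the symmetric group, whenever
   `2 ^ 42 * w ^ 6 * (d + 1) ^ 2 * (Nat.log 2 n + 1) ^ 4 ≤ n`.
2. Upper bound: symmetric circuits of AND and OR gates with `(n + |M| + 1) ^ 4` gates and
   depth `2 (n + |M|)`.
3. The numbers of walks are sums of entries of powers of the integer matrix counting the true gates
   on the arcs.
-/

namespace Pool.Agent.Results.MP_4e849b_lc.SymmetricCircuits

open H541R2.SC Equiv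

universe u

open Classical in
theorem result :
    (∀ (n w d : ℕ), 1 ≤ w → 2 ^ 42 * w ^ 6 * (d + 1) ^ 2 * (Nat.log 2 n + 1) ^ 4 ≤ n →
      ∀ (M G Q : Type u) [Finite G] [Finite Q] [MulAction (Perm (Fin n)) G]
        [MulAction (Perm (Fin n)) Q] (s t : M) (C : Circuit (Vx n M) G Q), s ≠ t →
        C.Symmetric → C.depth C.out ≤ d → C.Decides (Sum.inr s) (Sum.inr t) →
        (∃ g : G, n ^ w ≤ (MulAction.orbit (Perm (Fin n)) g).ncard) ∨
          ∃ q : Q, n ^ w ≤ (MulAction.orbit (Perm (Fin n)) q).ncard) ∧
    (∀ (n : ℕ) (M : Type u) [Finite M] (s t : M),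
      ∃ (G : Type u) (_ : Finite G) (_ : MulAction (Perm (Fin n)) G)
        (_ : MulAction (Perm (Fin n)) Bool) (C : Circuit (Vx n M) G Bool),
        C.Symmetric ∧ C.AndOr ∧ C.Decides (Sum.inr s) (Sum.inr t) ∧
        C.depth C.out = 2 * (n + Nat.card M) ∧ Nat.card G ≤ (n + Nat.card M + 1) ^ 4) ∧
    (∀ (V G Q : Type u) [Fintype G] [Fintype Q] (C : Circuit V G Q) (v : G → Prop) (g : G)
        (k : ℕ), (C.walks v g k).ncard = ∑ p, ∑ q, if C.ends g p q then
          ((Matrix.of fun p q => {h | C.wire g p q h ∧ v h}.ncard : Matrix Q Q ℕ) ^ k) p q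
          else 0) := by
  refine ⟨?_, ?_, ?_⟩
  · intro n w d hw hn M G Q _ _ _ _ s t C hst hC hd hdec
    exact lower hw hn hst C hC hd hdec
  · intro n M _ s t
    exact upper n M s t
  · intro V G Q _ _ C v g k
    exact ncard_walks C v g k

end Pool.Agent.Results.MP_4e849b_lc.SymmetricCircuits
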