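import Mathlib
import Pool.Agent.H553R2.ReachLower
import Pool.Agent.H553R2.Upper

namespace H553R2

open Equiv

/-- P versus NL for relabelling-invariant non-uniform computations.  Invariant counting circuits of
polynomial size decide derivability in path systems, but invariant circuits with arbitrary counting
gates and arbitrary (nested) reachability gates need more than `n ^ a` gates at depth `d` as soon
as `10 ^ 14 * ((d + 1) * (log n + 1) * a ^ 4) ^ 3 ≤ n`. -/
theorem _root_.Pool.Agent.Results.MP_4e849b_lc.SymmetricReach.result :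
    -- polynomial size suffices
    (∀ (n : ℕ) (M : Type) (_ : Fintype M) (s t : M),
      ∃ (Q : Type) (_ : Fintype Q) (_ : MulAction (Perm (Fin n)) Q) (C : SymCircuit n M Unit Q),
        Fintype.card Q ≤ 4 * (n + Fintype.card M) ^ 4 ∧
        ∀ R, C.val R C.out ↔ Derivable R (Sum.inr s) (Sum.inr t)) ∧
    -- lower bound for computations in (relativized, counting) nondeterministic logarithmic space
    (∀ (n d a : ℕ) (M Λ Q : Type) (_ : Fintype Q) (_ : MulAction (Perm (Fin n)) Q)
      (C : ReachCircuit n M Λ Q) (s t : M), s ≠ t → 1 ≤ a →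
      10 ^ 14 * ((d + 1) * (Nat.log 2 n + 1) * a ^ 4) ^ 3 ≤ n → C.level C.out ≤ d →
      (∀ R, C.val R C.out ↔ Derivable R (Sum.inr s) (Sum.inr t)) →
      n ^ a < Fintype.card Q) := by
  refine ⟨?_, ?_⟩
  · intro n M _ s t
    obtain ⟨Q, h1, h2, C, h3, -, h4⟩ := upper_bound n M s t
    exact ⟨Q, h1, h2, C, h3, h4⟩
  · intro n d a M Λ Q _ _ C s t hst ha hn hd hC
    exact lower_bound_reach C hst ha hn hd hC

end H553R2
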