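import Pool.Agent.H564R3.TE.Main
import Pool.Agent.H564R3.TE.Upper
import Pool.Agent.H564R3.SV.Good
import Pool.Agent.H564R3.TS.Real

/-!
Tree evaluation with few registers: a lower bound for pure dynamic programs.
-/

set_option autoImplicit false

namespace Pool.Agent.Results.MP_4e849b_lc.TreeEvaluation

open Finset
open scoped NNReal
open Pool.Agent.H564R3.PW (Instr exec syms)
open Pool.Agent.H564R3.TS
open Pool.Agent.H564R3.SV (good_trop_sum)
open Pool.Agent.H564R3.TE

/-- The (min,+) program `p`, whose constants are real numbers or infinity, writes into register `o`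
the least weight of a labelling of the tree, for all weights in the natural numbers. -/
def SolvesMin {n m : ℕ} {ρ : Type} [DecidableEq ρ] (par : ℕ → ℕ)
    (p : List (Instr (Tropical (WithTop ℝ)) (TVar n m) ρ)) (o : ρ) : Prop :=
  ∀ w : TVar n m → ℕ,
    exec (fun x => Tropical.trop (((w x : ℕ) : ℝ) : WithTop ℝ)) p o =
      treeSum par (fun x => Tropical.trop (((w x : ℕ) : ℝ) : WithTop ℝ))

/-- The program `p` over the nonnegative reals computes the tree polynomial. -/
def SolvesSum {n m : ℕ} {ρ : Type} [DecidableEq ρ] (par : ℕ → ℕ)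
    (p : List (Instr ℝ≥0 (TVar n m) ρ)) (o : ρ) : Prop :=
  ∀ w : TVar n m → ℝ≥0, exec w p o = treeSum par w

theorem lowerMin {n m : ℕ} {par : ℕ → ℕ} (hpar : IsPar par) (hn : 1 ≤ n) (hm : 1 ≤ m) {ρ : Type}
    [Fintype ρ] [DecidableEq ρ]
    (p : List (Instr (Tropical (WithTop ℝ)) (TVar n m) ρ)) (o : ρ)
    (h : SolvesMin par p o) :
    m ^ Nat.clog 2 n ≤
      2 * p.length * ((Nat.clog 2 p.length + 1) * Fintype.card ρ) ^ Nat.clog 2 n := by
  classical
  have hne : (univ.image (tset (n := n) (m := m) par)).Nonempty :=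
    ⟨tset par (fun _ => ⟨0, hm⟩), mem_image_of_mem _ (mem_univ _)⟩
  have hcard : ∀ A ∈ univ.image (tset (n := n) (m := m) par), A.card = n := by
    intro A hA
    rw [mem_image] at hA
    obtain ⟨φ, _, rfl⟩ := hA
    exact tree_card φ
  obtain ⟨g1, g2⟩ := good_trop_sum _ hne n hcard p o (by
    intro w
    rw [h w, tree_sum])
  refine tree_lower hpar hn hm p o g1 g2 ?_
  rcases p with _ | ⟨a, l⟩
  · have h1 := g1 _ (mem_image_of_mem (tset (n := n) (m := m) par) (mem_univ (fun _ => ⟨0, hm⟩)))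
    have h2 : syms ([] : List (Instr (Tropical (WithTop ℝ)) (TVar n m) ρ)) o = ∅ := rfl
    rw [h2] at h1
    exact absurd h1 (Set.notMem_empty _)
  · simp

theorem lowerSum {n m : ℕ} {par : ℕ → ℕ} (hpar : IsPar par) (hn : 1 ≤ n) (hm : 1 ≤ m) {ρ : Type}
    [Fintype ρ] [DecidableEq ρ]
    (p : List (Instr ℝ≥0 (TVar n m) ρ)) (o : ρ) (h : SolvesSum par p o) :
    m ^ Nat.clog 2 n ≤
      2 * p.length * ((Nat.clog 2 p.length + 1) * Fintype.card ρ) ^ Nat.clog 2 n := by
  classical
  have hcard : ∀ A ∈ univ.image (tset (n := n) (m := m) par), A.card = n := by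
    intro A hA
    rw [mem_image] at hA
    obtain ⟨φ, _, rfl⟩ := hA
    exact tree_card φ
  obtain ⟨g1, g2⟩ := good_nn _ n hcard p o (by
    intro w
    rw [h w, tree_sum])
  refine tree_lower hpar hn hm p o g1 g2 ?_
  rcases p with _ | ⟨a, l⟩
  · have h1 := g1 _ (mem_image_of_mem (tset (n := n) (m := m) par) (mem_univ (fun _ => ⟨0, hm⟩)))
    have h2 : syms ([] : List (Instr ℝ≥0 (TVar n m) ρ)) o = ∅ := rfl
    rw [h2] at h1
    exact absurd h1 (Set.notMem_empty _)
  · simp

/-- **Tree evaluation with few registers needs superpolynomial time on pure dynamic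
programs.** -/
theorem result :
    (∀ (n m : ℕ) (par : ℕ → ℕ) (ρ : Type) [Fintype ρ] [DecidableEq ρ], 1 ≤ n → 1 ≤ m →
      IsPar par →
      (∀ (p : List (Instr (Tropical (WithTop ℝ)) (TVar n m) ρ)) (o : ρ),
        SolvesMin par p o → m ^ Nat.clog 2 n ≤
          2 * p.length * ((Nat.clog 2 p.length + 1) * Fintype.card ρ) ^ Nat.clog 2 n) ∧
      (∀ (p : List (Instr ℝ≥0 (TVar n m) ρ)) (o : ρ),
        SolvesSum par p o → m ^ Nat.clog 2 n ≤
          2 * p.length * ((Nat.clog 2 p.length + 1) * Fintype.card ρ) ^ Nat.clog 2 n)) ∧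
    (∀ (R : Type) [CommSemiring R] (k m : ℕ),
      ∃ (ρ : Type) (_ : Fintype ρ) (_ : DecidableEq ρ)
        (p : List (Instr R (TVar (2 * k + 1) m) ρ)) (o : ρ),
        Fintype.card ρ = (2 * k + 1) * m + 3 ∧ p.length ≤ 10 * (2 * k + 1) * (m + 1) ^ 3 ∧
        ∀ w : TVar (2 * k + 1) m → R, exec w p o = treeSum (fun v => (v - 1) / 2) w) := by
  refine ⟨?_, ?_⟩
  · intro n m par ρ _ _ hn hm hpar
    exact ⟨fun p o h => lowerMin hpar hn hm p o h, fun p o h => lowerSum hpar hn hm p o h⟩
  · intro R _ k m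
    exact tree_upper k m

end Pool.Agent.Results.MP_4e849b_lc.TreeEvaluation
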